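import Pool.Agent.Y922.AP.Stm

/-!
# The algebra of ordinates
-/

set_option autoImplicit false

open Set Cardinal

namespace Pool.Agent.Y100.AP

open Pool.Agent.Y922.AP AlgebraicIndependent

/-- An algebraically independent finite family can be replaced by a family of the same size,
over which it is algebraic. -/
theorem exch (K : Subfield ℂ) {ι : Type} [Finite ι] (x y : ι → ℂ) (hx : AlgebraicIndependent K x)
    (h : ∀ i, IsAlgebraic (Algebra.adjoin K (range y)) (x i)) : AlgebraicIndependent K y := by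
  have hX : (matroid K ℂ).Indep (range x) := matroid_indep_iff.2 hx.to_subtype_range
  have hsub : range x ⊆ (matroid K ℂ).closure (range y) := by
    rintro _ ⟨i, rfl⟩
    rw [matroid_closure_eq]
    exact h i
  have h1 : (range x).encard ≤ (matroid K ℂ).eRk (range y) := by
    rw [← hX.eRk_eq_encard, ← Matroid.eRk_closure_eq _ (range y)]
    exact (matroid K ℂ).eRk_mono hsub
  have h2 : (range y).encard ≤ (range x).encard := by
    rw [← image_univ, ← image_univ, hx.injective.encard_image]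
    exact encard_image_le _ _
  have h3 : (matroid K ℂ).eRk (range y) = (range y).encard :=
    le_antisymm ((matroid K ℂ).eRk_le_encard _) (h2.trans h1)
  have h4 : (matroid K ℂ).Indep (range y) :=
    (Matroid.indep_iff_eRk_eq_encard_of_finite (finite_range y)).2 h3
  have h5 : Function.Injective y := by
    have h6 : (range y).encard = (range x).encard :=
      le_antisymm h2 (h1.trans ((matroid K ℂ).eRk_le_encard _))
    rw [← image_univ, ← image_univ, hx.injective.encard_image] at h6
    rw [← injOn_univ]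
    exact (finite_univ (α := ι)).injOn_of_encard_image_eq h6
  exact AlgebraicIndependent.of_subtype_range h5 (matroid_indep_iff.1 h4)

theorem t_ORD (hsym : S_SYM) : S_ORD := by
  classical
  intro K a h
  apply algebraicIndependent_of_finite_type
  intro t ht
  have : Finite t := ht
  -- the points
  choose β hβ using fun γ : {γ : ℝ // 0 < γ ∧ ∃ β : ℝ, xi ((β : ℂ) + (γ : ℂ) * Complex.I) = (a : ℂ)} =>
    γ.2.2
  obtain ⟨z, hz⟩ : ∃ z : {γ : ℝ // 0 < γ ∧ ∃ β : ℝ, xi ((β : ℂ) + (γ : ℂ) * Complex.I) = (a : ℂ)} → ℂ,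
      ∀ γ, z γ = (β γ : ℂ) + (γ.1 : ℂ) * Complex.I - 1 / 2 := ⟨_, fun _ => rfl⟩
  have hre : ∀ γ, (z γ).re = β γ - 1 / 2 := by
    intro γ
    rw [hz]
    simp
  have him : ∀ γ, (z γ).im = γ.1 := by
    intro γ
    rw [hz]
    simp
  have hsq : ∀ u v : ℂ, u ^ 2 = v ^ 2 → u = v ∨ u = -v := fun u v huv => sq_eq_sq_iff_eq_or_eq_neg.1 huv
  obtain ⟨ι, hι⟩ : ∃ ι : Type, ι = (t ⊕ {γ : t // β γ.1 ≠ 1 / 2}) := ⟨_, rfl⟩
  subst hι
  obtain ⟨x, hx1, hx2⟩ : ∃ x : (t ⊕ {γ : t // β γ.1 ≠ 1 / 2}) → ℂ, (∀ γ, x (Sum.inl γ) = z γ.1 ^ 2) ∧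
      ∀ γ, x (Sum.inr γ) = (starRingEnd ℂ (z γ.1.1)) ^ 2 :=
    ⟨Sum.elim (fun γ => z γ.1 ^ 2) (fun γ => (starRingEnd ℂ (z γ.1.1)) ^ 2), fun _ => rfl,
      fun _ => rfl⟩
  obtain ⟨y, hy1, hy2⟩ : ∃ y : (t ⊕ {γ : t // β γ.1 ≠ 1 / 2}) → ℂ,
      (∀ γ, y (Sum.inl γ) = ((γ.1.1 : ℝ) : ℂ)) ∧
      ∀ γ, y (Sum.inr γ) = (starRingEnd ℂ (z γ.1.1)) ^ 2 :=
    ⟨Sum.elim (fun γ => ((γ.1.1 : ℝ) : ℂ)) (fun γ => (starRingEnd ℂ (z γ.1.1)) ^ 2), fun _ => rfl,
      fun _ => rfl⟩
  have hinj : Function.Injective x := by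
    have key : ∀ γ γ' : t, z γ.1 ^ 2 = z γ'.1 ^ 2 → γ = γ' := by
      intro γ γ' hh
      rcases hsq _ _ hh with h1 | h1
      · have h2 := congrArg Complex.im h1
        rw [him, him] at h2
        exact Subtype.ext (Subtype.ext h2)
      · have h2 := congrArg Complex.im h1
        rw [Complex.neg_im, him, him] at h2
        have := γ.1.2.1
        have := γ'.1.2.1
        linarith
    have key2 : ∀ (γ : t) (γ' : {γ : t // β γ.1 ≠ 1 / 2}),
        z γ.1 ^ 2 ≠ (starRingEnd ℂ (z γ'.1.1)) ^ 2 := by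
      intro γ γ' hh
      rcases hsq _ _ hh with h1 | h1
      · have h2 := congrArg Complex.im h1
        rw [Complex.conj_im, him, him] at h2
        have := γ.1.2.1
        have := γ'.1.1.2.1
        linarith
      · have h2 := congrArg Complex.im h1
        rw [Complex.neg_im, Complex.conj_im, neg_neg, him, him] at h2
        have h3 : γ = γ'.1 := Subtype.ext (Subtype.ext h2)
        have h4 := congrArg Complex.re h1
        rw [Complex.neg_re, Complex.conj_re, hre, hre, h3] at h4
        exact γ'.2 (by linarith)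
    rintro (γ | γ) (γ' | γ') hh
    · rw [hx1, hx1] at hh
      rw [key _ _ hh]
    · rw [hx1, hx2] at hh
      exact absurd hh (key2 γ γ')
    · rw [hx2, hx1] at hh
      exact absurd hh.symm (key2 γ' γ)
    · rw [hx2, hx2, ← map_pow, ← map_pow] at hh
      have h1 := (starRingEnd ℂ).injective hh
      rw [Subtype.ext (key _ _ h1)]
  -- the points are solutions
  have hxs : ∀ i, ∃ s : ℂ, xi s = a ∧ x i = (s - 1 / 2) ^ 2 := by
    rintro (γ | γ)
    · exact ⟨_, hβ γ.1, by rw [hx1, hz]⟩
    · refine ⟨starRingEnd ℂ ((β γ.1.1 : ℂ) + (γ.1.1.1 : ℂ) * Complex.I), ?_, ?_⟩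
      · rw [hsym.2.1, hβ γ.1.1, Complex.conj_ofReal]
      · have h12 : starRingEnd ℂ (1 / 2 : ℂ) = 1 / 2 := by
          rw [map_div₀, map_one, map_ofNat]
        rw [hx2, hz, map_sub, h12]
  have hxi : AlgebraicIndependent K x := by
    have e : Fin (Nat.card (t ⊕ {γ : t // β γ.1 ≠ 1 / 2})) ≃ (t ⊕ {γ : t // β γ.1 ≠ 1 / 2}) :=
      (Finite.equivFin _).symm
    have h1 := h _ (x ∘ e) (hinj.comp e.injective) (fun i => hxs (e i))
    exact (algebraicIndependent_equiv e).1 h1
  have halg : ∀ i, IsAlgebraic (Algebra.adjoin K (range y)) (x i) := by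
    have hmem : ∀ i, y i ∈ Subalgebra.algebraicClosure (Algebra.adjoin K (range y)) ℂ := by
      intro i
      exact isAlgebraic_algebraMap (⟨y i, Algebra.subset_adjoin (mem_range_self i)⟩ :
        Algebra.adjoin K (range y))
    have hI : Complex.I ∈ Subalgebra.algebraicClosure (Algebra.adjoin K (range y)) ℂ := by
      refine IsAlgebraic.of_pow (n := 2) (by norm_num) ?_
      rw [Complex.I_sq]
      exact (Subalgebra.algebraicClosure (Algebra.adjoin K (range y)) ℂ).neg_mem
        (one_mem _)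
    rintro (γ | γ)
    · by_cases hb : β γ.1 = 1 / 2
      · have h1 : x (Sum.inl γ) = -(y (Sum.inl γ) ^ 2) := by
          rw [hx1, hy1, hz, hb]
          push_cast
          ring_nf
          rw [Complex.I_sq]
          ring
        rw [h1]
        exact (Subalgebra.algebraicClosure (Algebra.adjoin K (range y)) ℂ).neg_mem
          (pow_mem (hmem _) 2)
      · have h1 : starRingEnd ℂ (z γ.1) ∈
            Subalgebra.algebraicClosure (Algebra.adjoin K (range y)) ℂ := by
          refine IsAlgebraic.of_pow (n := 2) (by norm_num) ?_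
          have h2 := hmem (Sum.inr ⟨γ, hb⟩)
          rw [hy2] at h2
          exact h2
        have h2 : x (Sum.inl γ) =
            (starRingEnd ℂ (z γ.1) + (y (Sum.inl γ) * Complex.I + y (Sum.inl γ) * Complex.I)) ^ 2 := by
          rw [hx1, hy1]
          congr 1
          apply Complex.ext
          · simp
          · simp only [Complex.add_im, Complex.conj_im, Complex.mul_im, Complex.ofReal_re,
              Complex.ofReal_im, Complex.I_re, Complex.I_im, him]
            ring
        rw [h2]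
        exact pow_mem (add_mem h1 (add_mem (mul_mem (hmem _) hI) (mul_mem (hmem _) hI))) 2
    · have h1 := hmem (Sum.inr γ)
      rw [hy2] at h1
      rw [hx2]
      exact h1
  have hy := (exch K x y hxi halg).comp Sum.inl Sum.inl_injective
  convert hy using 1
  funext γ
  exact (hy1 γ).symm

end Pool.Agent.Y100.AP
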